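import Mathlib

/-!
# MP_2e3d39_co: trees with about half of the cards in common

Let `d(p)` be the largest number `k` such that every tree on `p` points is determined by any `p - k`
of its cards (among the trees). We prove `d(p) ≤ p / 2 - 1` for even `p ≥ 4` and `d(p) ≤ (p + 1) / 2`
for odd `p ≥ 5`.

The trees are double stars `D(a, b)`: two adjacent centres with `a` and `b` leaves. All cards of
`D(a, b + 1)` at leaves of the second centre and all cards of `D(a + 1, b)` at leaves of the first
centre are isomorphic to `D(a, b)`; for `b = a + 1` all cards of `D(a + 1, b)` at leaves are.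
-/

set_option autoImplicit false

namespace Pool.Agent.Results.MP_2e3d39_co.HalfTheCards

open Finset

/-- Every tree on `p` points is reconstructible after `k` discards: if `T` and `S` are trees on `p`
points and `p - k` cards of `T` (at the points of `A`) are isomorphic to `p - k` cards of `S` (at
the different points `φ x`), then `T` and `S` are isomorphic. -/
def AllReconstructible (p k : ℕ) : Prop :=
  ∀ (V W : Type) [Fintype V] [Fintype W] (T : SimpleGraph V) (S : SimpleGraph W),
    Fintype.card V = p → Fintype.card W = p → T.IsTree → S.IsTree →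
    ∀ (A : Finset V) (φ : V → W), A.card = p - k → Set.InjOn φ A →
      (∀ x ∈ A, Nonempty (T.induce {x}ᶜ ≃g S.induce {φ x}ᶜ)) → Nonempty (T ≃g S)

/-- The double star: two adjacent centres `inl false`, `inl true` and the leaves `inr l`, joined to
the centre `inl (f l)`. -/
def star {L : Type} (f : L → Bool) : SimpleGraph (Bool ⊕ L) :=
  SimpleGraph.fromRel fun x y => match x, y with
    | Sum.inl _, Sum.inl _ => True
    | Sum.inl c, Sum.inr l => f l = c
    | _, _ => False

section

variable {L : Type} (f : L → Bool)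

@[simp] theorem adj_ll (c d : Bool) : (star f).Adj (Sum.inl c) (Sum.inl d) ↔ c ≠ d := by
  simp [star]

@[simp] theorem adj_lr (c : Bool) (l : L) : (star f).Adj (Sum.inl c) (Sum.inr l) ↔ f l = c := by
  simp [star]

@[simp] theorem adj_rl (c : Bool) (l : L) : (star f).Adj (Sum.inr l) (Sum.inl c) ↔ f l = c := by
  simp [star]

@[simp] theorem adj_rr (l m : L) : ¬ (star f).Adj (Sum.inr l) (Sum.inr m) := by
  simp [star]

theorem connected : (star f).Connected := by
  have h0 : ∀ x, (star f).Reachable (Sum.inl false) x := by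
    have h1 : (star f).Reachable (Sum.inl false) (Sum.inl true) :=
      SimpleGraph.Adj.reachable (by simp)
    have h2 : ∀ c, (star f).Reachable (Sum.inl false) (Sum.inl c) := by
      intro c
      cases c
      · rfl
      · exact h1
    rintro (c | l)
    · exact h2 c
    · exact (h2 (f l)).trans (SimpleGraph.Adj.reachable (by simp))
  exact ⟨fun x y => (h0 x).symm.trans (h0 y)⟩

theorem isTree [Fintype L] : (star f).IsTree := by
  classical
  rw [SimpleGraph.isTree_iff_connected_and_card]
  refine ⟨connected f, ?_⟩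
  have h1 := (connected f).card_vert_le_card_edgeSet_add_one
  let F : Option L → (star f).edgeSet := fun o => match o with
    | none => ⟨s(Sum.inl false, Sum.inl true), by simp⟩
    | some l => ⟨s(Sum.inl (f l), Sum.inr l), by simp⟩
  have hF : Function.Surjective F := by
    rintro ⟨e, he⟩
    induction e using Sym2.ind with
    | _ x y =>
      rw [SimpleGraph.mem_edgeSet] at he
      rcases x with c | l <;> rcases y with d | m
      · refine ⟨none, Subtype.ext ?_⟩
        rw [adj_ll] at he
        cases c <;> cases d <;> simp_all [F, Sym2.eq_swap]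
      · refine ⟨some m, Subtype.ext ?_⟩
        rw [adj_lr] at he
        simp [F, he]
      · refine ⟨some l, Subtype.ext ?_⟩
        rw [adj_rl] at he
        simp [F, he, Sym2.eq_swap]
      · exact absurd he (adj_rr f l m)
  have h2 := Nat.card_le_card_of_surjective F hF
  have h3 : Nat.card (Option L) = Nat.card L + 1 := by
    rw [Nat.card_eq_fintype_card, Nat.card_eq_fintype_card, Fintype.card_option]
  have h4 : Nat.card (Bool ⊕ L) = 2 + Nat.card L := by
    rw [Nat.card_eq_fintype_card, Nat.card_eq_fintype_card, Fintype.card_sum, Fintype.card_bool]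
  omega

/-- Isomorphisms of double stars. -/
def isoOf {f g : L → Bool} (s : Bool ≃ Bool) (σ : Equiv.Perm L) (h : ∀ l, g (σ l) = s (f l)) :
    star f ≃g star g where
  toEquiv := Equiv.sumCongr s σ
  map_rel_iff' := by
    rintro (c | l) (d | m) <;> simp [h]

theorem card_iso {V W : Type} {G : SimpleGraph V} {H : SimpleGraph W} (φ : G ≃g H) (x : V) :
    Nonempty (G.induce {x}ᶜ ≃g H.induce {φ x}ᶜ) := by
  refine ⟨⟨Equiv.subtypeEquiv φ.toEquiv fun a => ?_, ?_⟩⟩
  · simp only [Set.mem_compl_iff, Set.mem_singleton_iff]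
    exact not_congr (φ.toEquiv.injective.eq_iff (a := a) (b := x)).symm
  · rintro ⟨a, ha⟩ ⟨b, hb⟩
    exact φ.map_adj_iff

theorem card_congr {f g : L → Bool} (x : L) (h : ∀ l, l ≠ x → f l = g l) :
    Nonempty ((star f).induce {Sum.inr x}ᶜ ≃g (star g).induce {Sum.inr x}ᶜ) := by
  refine ⟨⟨Equiv.refl _, ?_⟩⟩
  rintro ⟨a, ha⟩ ⟨b, hb⟩
  change (star g).Adj a b ↔ (star f).Adj a b
  rcases a with c | l <;> rcases b with d | m
  · simp
  · have hm : m ≠ x := fun h' => hb (by simp [h'])
    simp [h m hm]
  · have hl : l ≠ x := fun h' => ha (by simp [h'])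
    simp [h l hl]
  · simp

open Classical in
theorem degree_inl [Fintype L] (c : Bool) :
    (star f).degree (Sum.inl c) = (univ.filter fun l => f l = c).card + 1 := by
  have h : (star f).neighborFinset (Sum.inl c) =
      insert (Sum.inl (!c)) ((univ.filter fun l => f l = c).map Function.Embedding.inr) := by
    ext x
    rcases x with d | l
    · cases c <;> cases d <;> simp
    · simp
  rw [← SimpleGraph.card_neighborFinset_eq_degree, h, card_insert_of_notMem (by simp), card_map]

open Classical in
theorem degree_inr [Fintype L] (l : L) : (star f).degree (Sum.inr l) = 1 := by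
  have h : (star f).neighborFinset (Sum.inr l) = {Sum.inl (f l)} := by
    ext x
    rcases x with d | m
    · simp [eq_comm]
    · simp
  rw [← SimpleGraph.card_neighborFinset_eq_degree, h, card_singleton]

end

section

variable (a b : ℕ)

/-- the leaf which is moved -/
def pt : Fin (a + b + 1) := ⟨a, by omega⟩

/-- `a` leaves at the first centre and `b + 1` leaves at the second one -/
def f₁ (l : Fin (a + b + 1)) : Bool := decide (pt a b ≤ l)

/-- `a + 1` leaves at the first centre and `b` leaves at the second one -/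
def f₂ (l : Fin (a + b + 1)) : Bool := decide (pt a b < l)

theorem not_iso (hab : a < b) : ¬ Nonempty (star (f₁ a b) ≃g star (f₂ a b)) := by
  classical
  rintro ⟨φ⟩
  have h1 : (star (f₁ a b)).degree (Sum.inl true) = b + 2 := by
    rw [degree_inl]
    have : (univ.filter fun l => f₁ a b l = true) = Ici (pt a b) := by
      ext l
      simp [f₁]
    rw [this, Fin.card_Ici]
    simp only [pt]
    omega
  have h2 : ∀ y, (star (f₂ a b)).degree y ≤ b + 1 := by
    rintro (c | l)
    · rw [degree_inl]
      cases c
      · have : (univ.filter fun l => f₂ a b l = false) = Iic (pt a b) := by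
          ext l
          simp [f₂]
        rw [this, Fin.card_Iic]
        simp only [pt]
        omega
      · have : (univ.filter fun l => f₂ a b l = true) = Ioi (pt a b) := by
          ext l
          simp [f₂]
        rw [this, Fin.card_Ioi]
        simp only [pt]
        omega
    · rw [degree_inr]
      omega
  have h3 : (star (f₂ a b)).degree (φ (Sum.inl true)) = (star (f₁ a b)).degree (Sum.inl true) := by
    rw [← SimpleGraph.card_neighborSet_eq_degree, ← SimpleGraph.card_neighborSet_eq_degree]
    exact (Fintype.card_congr (φ.mapNeighborSet (Sum.inl true))).symm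
  have h4 := h2 (φ (Sum.inl true))
  omega

/-- The cards at two leaves of one centre are isomorphic. -/
theorem same_centre {L : Type} [DecidableEq L] (f : L → Bool) (x y : L) (h : f x = f y) :
    Nonempty ((star f).induce {Sum.inr x}ᶜ ≃g (star f).induce {Sum.inr y}ᶜ) := by
  have h1 := card_iso (isoOf (f := f) (g := f) (Equiv.refl Bool) (Equiv.swap x y) fun l => by
    rcases eq_or_ne l x with rfl | hx
    · simp [h]
    · rcases eq_or_ne l y with rfl | hy
      · simp [h]
      · simp [Equiv.swap_apply_of_ne_of_ne hx hy]) (Sum.inr x)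
  have h2 : isoOf (f := f) (g := f) (Equiv.refl Bool) (Equiv.swap x y) (fun l => by
    rcases eq_or_ne l x with rfl | hx
    · simp [h]
    · rcases eq_or_ne l y with rfl | hy
      · simp [h]
      · simp [Equiv.swap_apply_of_ne_of_ne hx hy]) (Sum.inr x) = Sum.inr y := by
    simp [isoOf]
  rw [h2] at h1
  exact h1

theorem not_recon (k : ℕ) (hab : a < b) (B : Finset (Bool ⊕ Fin (a + b + 1)))
    (hB : ∀ y ∈ B, Nonempty ((star (f₂ a b)).induce {Sum.inr (pt a b)}ᶜ ≃g
      (star (f₂ a b)).induce {y}ᶜ))
    (h1 : a + b + 3 - k ≤ B.card) (h2 : a + b + 3 - k ≤ b + 1) :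
    ¬ AllReconstructible (a + b + 3) k := by
  classical
  intro h
  have hcard : Fintype.card (Bool ⊕ Fin (a + b + 1)) = a + b + 3 := by
    rw [Fintype.card_sum, Fintype.card_bool, Fintype.card_fin]
    omega
  let A₁ : Finset (Bool ⊕ Fin (a + b + 1)) := (Ici (pt a b)).map Function.Embedding.inr
  have hA₁ : A₁.card = b + 1 := by
    rw [card_map, Fin.card_Ici]
    simp only [pt]
    omega
  obtain ⟨A, hA, hAc⟩ := exists_subset_card_eq (s := A₁) (n := a + b + 3 - k) (by omega)
  obtain ⟨B', hB', hBc⟩ := exists_subset_card_eq (s := B) (n := a + b + 3 - k) h1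
  let e : A ≃ B' := Finset.equivOfCardEq (hAc.trans hBc.symm)
  let φ : Bool ⊕ Fin (a + b + 1) → Bool ⊕ Fin (a + b + 1) := fun x =>
    if hx : x ∈ A then (e ⟨x, hx⟩ : Bool ⊕ Fin (a + b + 1)) else x
  apply not_iso a b hab
  refine h _ _ (star (f₁ a b)) (star (f₂ a b)) hcard hcard (isTree _) (isTree _) A φ hAc ?_ ?_
  · intro x hx y hy hxy
    have hx' : x ∈ A := hx
    have hy' : y ∈ A := hy
    simp only [φ, hx', hy', dif_pos] at hxy
    have := e.injective (Subtype.ext hxy)
    exact congrArg Subtype.val this
  · intro x hx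
    have hφ : φ x ∈ B := by
      simp only [φ, hx, dif_pos]
      exact hB' (e ⟨x, hx⟩).2
    obtain ⟨l, hl, rfl⟩ := mem_map.1 (hA hx)
    obtain ⟨α⟩ := same_centre (f₁ a b) l (pt a b) (by
      rw [mem_Ici] at hl
      simp [f₁, hl])
    obtain ⟨β⟩ := card_congr (f := f₁ a b) (g := f₂ a b) (pt a b) (fun m hm => by
      simp only [f₁, f₂, decide_eq_decide]
      exact ⟨fun h => lt_of_le_of_ne h (Ne.symm hm), fun h => h.le⟩)
    obtain ⟨γ⟩ := hB _ hφ
    exact ⟨(α.trans β).trans γ⟩

theorem first_centre (y : Bool ⊕ Fin (a + b + 1))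
    (hy : y ∈ (Iic (pt a b)).map Function.Embedding.inr) :
    Nonempty ((star (f₂ a b)).induce {Sum.inr (pt a b)}ᶜ ≃g (star (f₂ a b)).induce {y}ᶜ) := by
  obtain ⟨l, hl, rfl⟩ := mem_map.1 hy
  apply same_centre
  rw [mem_Iic] at hl
  simp [f₂, hl]

end

theorem all_leaves (a : ℕ) (y : Bool ⊕ Fin (a + (a + 1) + 1))
    (hy : y ∈ (univ : Finset (Fin (a + (a + 1) + 1))).map Function.Embedding.inr) :
    Nonempty ((star (f₂ a (a + 1))).induce {Sum.inr (pt a (a + 1))}ᶜ ≃g
      (star (f₂ a (a + 1))).induce {y}ᶜ) := by
  obtain ⟨l, hl, rfl⟩ := mem_map.1 hy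
  by_cases h : l ≤ pt a (a + 1)
  · exact first_centre a (a + 1) _ (mem_map_of_mem _ (mem_Iic.2 h))
  · have hrev : Fin.rev l ≤ pt a (a + 1) := by
      rw [Fin.le_def] at h ⊢
      simp only [pt, Fin.val_rev] at h ⊢
      omega
    obtain ⟨α⟩ := first_centre a (a + 1) _ (mem_map_of_mem Function.Embedding.inr
      (mem_Iic.2 hrev))
    have hσ : ∀ m : Fin (a + (a + 1) + 1),
        f₂ a (a + 1) (Fin.revPerm m) = Equiv.boolNot (f₂ a (a + 1) m) := by
      intro m
      simp only [f₂, Fin.revPerm_apply, Equiv.boolNot_apply, Fin.lt_def, Fin.val_rev, pt]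
      rw [← decide_not]
      simp only [decide_eq_decide]
      omega
    obtain ⟨β⟩ := card_iso (isoOf (f := f₂ a (a + 1)) (g := f₂ a (a + 1)) Equiv.boolNot
      Fin.revPerm hσ) (Sum.inr (Fin.rev l))
    have h2 : isoOf (f := f₂ a (a + 1)) (g := f₂ a (a + 1)) Equiv.boolNot
        Fin.revPerm hσ (Sum.inr (Fin.rev l)) = Sum.inr l := by
      simp [isoOf]
    rw [h2] at β
    exact ⟨α.trans β⟩

/-- `d(p)`: the largest number `k < p` of cards that can be discarded from the decks of all trees on
`p` points (the supremum of a bounded set of natural numbers). -/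
noncomputable def d (p : ℕ) : ℕ := sSup {k | k < p ∧ AllReconstructible p k}

/-- For `m ≥ 2`: after `m` (or more) discards not all trees on `2 m` points are reconstructible, and
after `m + 2` (or more) discards not all trees on `2 m + 1` points. So `d(2 m) ≤ m - 1` and
`d(2 m + 1) ≤ m + 1`. -/
theorem result (m : ℕ) (hm : 2 ≤ m) :
    (∀ k, m ≤ k → ¬ AllReconstructible (2 * m) k) ∧
    (∀ k, m + 2 ≤ k → ¬ AllReconstructible (2 * m + 1) k) ∧
    d (2 * m) ≤ m - 1 ∧ d (2 * m + 1) ≤ m + 1 := by
  have h1 : ∀ k, m ≤ k → ¬ AllReconstructible (2 * m) k := by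
    intro k hk
    obtain ⟨a, rfl⟩ := Nat.exists_eq_add_of_le' hm
    have h := not_recon a (a + 1) k (by omega) _ (all_leaves a) (by
      rw [card_map, card_univ, Fintype.card_fin]
      omega) (by omega)
    have he : a + (a + 1) + 3 = 2 * (a + 2) := by ring
    rwa [he] at h
  have h2 : ∀ k, m + 2 ≤ k → ¬ AllReconstructible (2 * m + 1) k := by
    intro k hk
    obtain ⟨a, rfl⟩ := Nat.exists_eq_add_of_le' hm
    have h := not_recon a (a + 2) k (by omega) _ (first_centre a (a + 2)) (by
      rw [card_map, Fin.card_Iic]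
      simp only [pt]
      omega) (by omega)
    have he : a + (a + 2) + 3 = 2 * (a + 2) + 1 := by ring
    rwa [he] at h
  refine ⟨h1, h2, csSup_le' ?_, csSup_le' ?_⟩
  · rintro k ⟨-, hk⟩
    by_contra hc
    exact h1 k (by omega) hk
  · rintro k ⟨-, hk⟩
    by_contra hc
    exact h2 k (by omega) hk

end Pool.Agent.Results.MP_2e3d39_co.HalfTheCards
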